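import Pool.Agent.V8H29.NV6

/-!
# MP_298761_ag, Q1: finitely many classes suffice for the variational Hodge conjecture

`S` is a connected base, `𝒯` is an `S`-linear admissible subcategory of `D_perf(X)`, `X/S` smooth and
proper, which contains `D_perf(S)` as a direct summand and has a perfect pairing
`𝒯 ⊠ 𝒯 → D_perf(S)`. (For an arbitrary `𝒞 ⊆ D_perf(X)` one takes `𝒯 = 𝒞 ⊕ 𝒞^∨ ⊕ D_perf(S)`; the
mixed powers `𝒞^a ⊠ (𝒞^∨)^b` are direct summands of the powers of `𝒯`.)

Coordinates. `ι` is a basis of `V = K^top_•(𝒯_s) ⊗ ℚ` at a point `s`, `par i` is the parity of `i`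
(`K_0` or `K_1`), and the classes of `K^top_0(𝒯_s^(n+1)) ⊗ ℚ` are arrays with `n + 1` indices
(Kuenneth). `π k` is the projector of `V ⊗ ℂ` to the part of type `(p, q)`, `p - q = k`, `Q` is a
polarisation, the basis vector `o` is the class of the unit of `D_perf(S)`, and `X` is the matrix of
the pairing. For a point `p` of `S`, `A p n` is the space of the global sections of the local
system `K^top_0(𝒯^(n+1)/S) ⊗ ℚ`, given by their values at `s`, which are algebraic at `p`; they are
Hodge classes at all points, and `A p` is stable under exchanges of neighbouring factors, exterior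
products and the functor `𝒯^(n+3) → 𝒯^(n+1)` which is the pairing for the last two factors.
-/

set_option autoImplicit false
set_option linter.unusedSectionVars false

namespace Pool.Agent.Results.MP_298761_ag.BoundedPowers

open Matrix

section Defs

variable {ι : Type}

/-- The classes on the power with `n + 1` factors. -/
abbrev Classes (ι : Type) (n : ℕ) : Type := (Fin (n + 1) → ι) → ℚ

/-- The exchange of the factors `k` and `k + 1`, with the usual sign if both are odd. -/
def exchange (par : ι → Bool) {n : ℕ} (k : Fin n) (a : Classes ι n) : Classes ι n := fun i =>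
  (if par (i k.castSucc) = true ∧ par (i k.succ) = true then -1 else 1) *
    a (i ∘ Equiv.swap k.castSucc k.succ)

/-- The exterior product. -/
def exterior {n m : ℕ} (a : Classes ι n) (b : Classes ι m) : Classes ι (n + m + 1) := fun i =>
  a (fun k => i ⟨k.1, by omega⟩) * b fun k => i ⟨n + 1 + k.1, by omega⟩

variable [Fintype ι]

/-- The pairing for the last two factors. -/
def pair (X : Matrix ι ι ℚ) {n : ℕ} (a : Classes ι (n + 2)) : Classes ι n := fun i =>
  ∑ x, ∑ y, X x y * a (Fin.snoc (α := fun _ => ι) (Fin.snoc (α := fun _ => ι) i x) y)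

/-- The axioms for the algebraic classes on the powers. -/
structure IsClassSystem (par : ι → Bool) (X : Matrix ι ι ℚ)
    (A : ∀ n : ℕ, Submodule ℚ (Classes ι n)) : Prop where
  exchange : ∀ (n : ℕ) (k : Fin n) (a : Classes ι n), a ∈ A n → exchange par k a ∈ A n
  exterior : ∀ (n m : ℕ) (a : Classes ι n) (b : Classes ι m), a ∈ A n → b ∈ A m →
    exterior a b ∈ A (n + m + 1)
  pair : ∀ (n : ℕ) (a : Classes ι (n + 2)), a ∈ A (n + 2) → pair X a ∈ A n

/-- The rational matrix as a complex matrix. -/
def toC (M : Matrix ι ι ℚ) : Matrix ι ι ℂ := M.map fun x : ℚ => (x : ℂ)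

/-- The action of `ℂ^*` which defines the Hodge structure: `t` acts by `t ^ k` on the part `k`. -/
noncomputable def act (w : ℕ) (π : ℤ → Matrix ι ι ℂ) (t : ℂ) : Matrix ι ι ℂ :=
  ∑ k ∈ Finset.Icc (-w : ℤ) w, t ^ k • π k

/-- The Hodge classes on the power with `n + 1` factors: the rational arrays fixed by the
`n + 1`-st tensor power of the action of `ℂ^*`. -/
noncomputable def hodge (w : ℕ) (π : ℤ → Matrix ι ι ℂ) (n : ℕ) : Submodule ℚ (Classes ι n) where
  carrier := {a | ∀ t : ℂ, t ≠ 0 → ∀ i : Fin (n + 1) → ι,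
    ∑ j : Fin (n + 1) → ι, (∏ k, act w π t (i k) (j k)) * (a j : ℂ) = (a i : ℂ)}
  add_mem' {a b} ha hb t ht i := by
    have h1 : ∀ j, (∏ k, act w π t (i k) (j k)) * (((a + b) j : ℚ) : ℂ) =
        (∏ k, act w π t (i k) (j k)) * (a j : ℂ) + (∏ k, act w π t (i k) (j k)) * (b j : ℂ) := by
      intro j
      rw [Pi.add_apply, Rat.cast_add, mul_add]
    rw [Finset.sum_congr rfl fun j _ => h1 j, Finset.sum_add_distrib, ha t ht i, hb t ht i,
      Pi.add_apply, Rat.cast_add]
  zero_mem' t _ i := by simp
  smul_mem' c a ha t ht i := by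
    have h1 : ∀ j, (∏ k, act w π t (i k) (j k)) * (((c • a) j : ℚ) : ℂ) =
        (c : ℂ) * ((∏ k, act w π t (i k) (j k)) * (a j : ℂ)) := by
      intro j
      rw [Pi.smul_apply, smul_eq_mul, Rat.cast_mul]
      ring
    rw [Finset.sum_congr rfl fun j _ => h1 j, ← Finset.mul_sum, ha t ht i, Pi.smul_apply,
      smul_eq_mul, Rat.cast_mul]

/-- The dimension of the transcendental part of `V`: the codimension of the Hodge classes. -/
noncomputable def trdim (w : ℕ) (π : ℤ → Matrix ι ι ℂ) : ℕ :=
  Fintype.card ι - Module.finrank ℚ (hodge w π 0)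

/-- The rational endomorphisms of the Hodge structure. -/
def IsHodgeEnd (w : ℕ) (π : ℤ → Matrix ι ι ℂ) (y : Matrix ι ι ℚ) : Prop :=
  ∀ t : ℂ, t ≠ 0 → act w π t * toC y = toC y * act w π t

/-- The central elements of the algebra of the endomorphisms of the Hodge structure. -/
def IsCentral (w : ℕ) (π : ℤ → Matrix ι ι ℂ) (y : Matrix ι ι ℚ) : Prop :=
  IsHodgeEnd w π y ∧ ∀ y', IsHodgeEnd w π y' → y * y' = y' * y

/-- The class on the power with two factors which has the matrix `M`. -/
def two (M : Matrix ι ι ℚ) : Classes ι 1 := fun i => M (i 0) (i 1)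

variable [DecidableEq ι]

/-- A rational Hodge structure on `V`, polarised by `Q` with `Q o o = 1`, for which the basis vector
`o` is of type `(0, 0)`. The projectors `π k` belong to `p - q = k`, where `|k| ≤ w`. -/
structure IsPolarised (w : ℕ) (π : ℤ → Matrix ι ι ℂ) (Q : Matrix ι ι ℚ) (o : ι) : Prop where
  one : ∑ k ∈ Finset.Icc (-w : ℤ) w, π k = 1
  mul : ∀ k ∈ Finset.Icc (-w : ℤ) w, ∀ l ∈ Finset.Icc (-w : ℤ) w,
    π k * π l = if k = l then π k else 0
  cnj : ∀ k ∈ Finset.Icc (-w : ℤ) w, (π k).map (starRingEnd ℂ) = π (-k)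
  adj : ∀ k ∈ Finset.Icc (-w : ℤ) w, (π k)ᵀ * toC Q = toC Q * π (-k)
  pos : ∀ k ∈ Finset.Icc (-w : ℤ) w, ∀ v : ι → ℂ, v ≠ 0 → π k *ᵥ v = v →
    ∃ r : ℝ, 0 < r ∧ Complex.I ^ k * (star v ⬝ᵥ (toC Q *ᵥ v)) = r
  unit : π 0 *ᵥ Pi.single o 1 = Pi.single o 1
  norm : Q o o = 1

/-- The pairing `X` is perfect, even, and a morphism of Hodge structures `V ⊗ V → ℚ`, and the Hodge
structure is compatible with the parity. -/
structure IsPairing (w : ℕ) (π : ℤ → Matrix ι ι ℂ) (par : ι → Bool) (X : Matrix ι ι ℚ) : Prop where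
  parity : ∀ k ∈ Finset.Icc (-w : ℤ) w, ∀ i j, π k i j ≠ 0 → par i = par j
  even : ∀ i j, X i j ≠ 0 → par i = par j
  hodge : ∀ t : ℂ, t ≠ 0 → (act w π t)ᵀ * toC X * act w π t = toC X
  perfect : X.det ≠ 0

/-- The class of the unit of `D_perf(S)`. -/
def unitClass (o : ι) : Classes ι 0 := fun i => if i 0 = o then 1 else 0

/-- The class of the projector to the odd part `K_1`. -/
noncomputable def oddClass (par : ι → Bool) (X : Matrix ι ι ℚ) : Classes ι 1 :=
  two (X⁻¹ * Matrix.diagonal fun i => if par i = true then 1 else 0)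

/-- The class of the polarisation `Q`. -/
noncomputable def polClass (X Q : Matrix ι ι ℚ) : Classes ι 1 := two (X⁻¹ * Q * X⁻¹)

/-- The variational Hodge conjecture from the point `p` to the point `q` for the power with `n + 1`
factors: the global sections which are algebraic at `p` are algebraic at `q`. -/
def Variational {P : Type} (A : P → ∀ n : ℕ, Submodule ℚ (Classes ι n)) (p q : P) (n : ℕ) : Prop :=
  A p n ≤ A q n

/-- The variational Hodge conjecture from `p` to `q` for all powers and for all their direct summands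
(`K`: the classes on the summand; `i`, `r`: inclusion and projection; `D p`: the classes which are
algebraic at `p`). -/
def VariationalAll {P : Type} (A : P → ∀ n : ℕ, Submodule ℚ (Classes ι n)) (p q : P) : Prop :=
  (∀ n, Variational A p q n) ∧
  ∀ (n : ℕ) (K : Type) [AddCommGroup K] [Module ℚ K] (i : K →ₗ[ℚ] Classes ι n)
    (r : Classes ι n →ₗ[ℚ] K) (D : P → Submodule ℚ K), (∀ x, r (i x) = x) →
    (∀ p, ∀ x ∈ D p, i x ∈ A p n) → (∀ p, ∀ a ∈ A p n, r a ∈ D p) → D p ≤ D q

end Defs

section Proofs

open Pool.Agent.N996.BP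

variable {ι : Type} [Fintype ι] [DecidableEq ι]

theorem hodge_eq (H : HData ι) (n : ℕ) : hodge H.w H.π n = BB H (Fin (n + 1)) := by
  ext a
  constructor
  · intro h t ht
    funext i
    rw [Matrix.mulVec, dotProduct]
    simp_rw [kp_apply]
    exact h t ht i
  · intro h t ht i
    have h1 := congrFun (h t ht) i
    rw [Matrix.mulVec, dotProduct] at h1
    simp_rw [kp_apply] at h1
    exact h1

theorem trdim_zero {H : HData ι} (h0 : H.w = 0) : trdim H.w H.π = 0 := by
  have h1 : ∀ t, H.l t = 1 := by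
    intro t
    have h2 := H.h1
    rw [h0] at h2
    rw [HData.l_apply, h0]
    simp only [Nat.cast_zero, neg_zero, Finset.Icc_self, Finset.sum_singleton] at h2 ⊢
    rw [_root_.zpow_zero, one_smul, h2]
  have h3 : hodge H.w H.π 0 = ⊤ := by
    rw [hodge_eq]
    refine top_unique fun a _ t _ => ?_
    rw [h1, kp_one, Matrix.one_mulVec]
  have h4 : Module.finrank ℚ (Classes ι 0) = Fintype.card ι := by
    rw [Module.finrank_fintype_fun_eq_card, Fintype.card_fun, Fintype.card_fin, pow_one]
  rw [trdim, h3, finrank_top, h4, Nat.sub_self]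

theorem variationalAll_of {P : Type} {A : P → ∀ n : ℕ, Submodule ℚ (Classes ι n)} {p q : P}
    (h : ∀ n, Variational A p q n) : VariationalAll A p q := by
  refine ⟨h, fun n K _ _ i r D hri hi hr x hx => ?_⟩
  have h1 := hr q _ (h n (hi p x hx))
  rwa [hri] at h1

/-- Finitely many classes span the classes on the powers of bounded degree. -/
theorem exists_finite (B : ∀ n : ℕ, Submodule ℚ (Classes ι n)) (M : ℕ) :
    ∃ (r : ℕ) (d : Fin r → ℕ) (φ : ∀ j, Classes ι (d j)), (∀ j, φ j ∈ B (d j)) ∧
      ∀ C : ∀ n : ℕ, Submodule ℚ (Classes ι n), (∀ j, φ j ∈ C (d j)) →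
        ∀ n, n + 1 ≤ M → B n ≤ C n := by
  have h1 : ∀ n, ∃ s : Finset (Classes ι n), Submodule.span ℚ (s : Set (Classes ι n)) = B n :=
    fun n => IsNoetherian.noetherian (B n)
  choose s hs using h1
  obtain ⟨F, hF⟩ : ∃ F : Finset (Σ n : ℕ, Classes ι n), F = (Finset.range M).sigma s := ⟨_, rfl⟩
  refine ⟨F.card, fun j => (F.equivFin.symm j).1.1, fun j => (F.equivFin.symm j).1.2,
    fun j => ?_, fun C hC n hn => ?_⟩
  · have h3 : ∀ y ∈ F, y.2 ∈ B y.1 := by
      intro y hy
      rw [hF, Finset.mem_sigma] at hy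
      rw [← hs]
      exact Submodule.subset_span hy.2
    exact h3 _ (F.equivFin.symm j).2
  · rw [← hs, Submodule.span_le]
    intro x hx
    have h2 : (⟨n, x⟩ : Σ n : ℕ, Classes ι n) ∈ F := by
      rw [hF, Finset.mem_sigma]
      exact ⟨Finset.mem_range.2 hn, hx⟩
    have h3 : ∀ y : F, y.1.2 ∈ C y.1.1 := by
      intro y
      have h4 := hC (F.equivFin y)
      beta_reduce at h4
      rwa [Equiv.symm_apply_apply] at h4
    exact h3 ⟨_, h2⟩

theorem classSys_of {par : ι → Bool} {X : Matrix ι ι ℚ} {A : ∀ n : ℕ, Submodule ℚ (Classes ι n)}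
    (h : IsClassSystem par X A) : Pool.Agent.V8H29.NV.ClassSys par X A :=
  ⟨h.exchange, h.exterior, h.pair⟩

theorem polarised_of {w : ℕ} {π : ℤ → Matrix ι ι ℂ} {Q : Matrix ι ι ℚ} {o : ι}
    (h : IsPolarised w π Q o) : Pool.Agent.V8H29.NV.IsPolarised w π Q o :=
  ⟨h.one, h.mul, h.cnj, h.adj, h.pos, h.unit, h.norm⟩

end Proofs

end Pool.Agent.Results.MP_298761_ag.BoundedPowers

open Matrix Pool.Agent.Results.MP_298761_ag.BoundedPowers in
/-- **Finitely many classes suffice.** Let `V` be a polarised Hodge structure with a perfect pairing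
`X`, and, for every point `p`, let `A p` be a system of Hodge classes on the powers (the global
sections which are algebraic at `p`).

(1) If the classes of the unit, of the projector to the odd part and of the polarisation are
algebraic at `p`, there are finitely many classes `φ j` on the powers, algebraic at `p`, such that
for all points `q` at which all `φ j` are algebraic the variational Hodge conjecture from `p` to `q`
holds for all powers and all their direct summands.

(2) If all Hodge classes on the powers with at most `N` factors are algebraic at `p`, the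
variational Hodge conjecture from `p` to `q` for the powers with at most `N` factors implies it for
all powers and all their direct summands, and all Hodge classes on all powers are then algebraic at
`p` and `q`; here `N` is the maximum of `4` and of the dimension `t` of the transcendental part of
`V`, if the central endomorphisms of the Hodge structure are self-adjoint; of `4` and `t² / 4`, if
`∑ k, k * tr (y | V^k) = 0` for the central endomorphisms `y`; of `4` and `(w t)^t` in general. -/
theorem Pool.Agent.Results.MP_298761_ag.BoundedPowers.result {ι : Type} [Fintype ι]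
    [DecidableEq ι] (w : ℕ) (π : ℤ → Matrix ι ι ℂ) (Q : Matrix ι ι ℚ) (o : ι)
    (hQ : IsPolarised w π Q o) (par : ι → Bool) (X : Matrix ι ι ℚ) (hX : IsPairing w π par X)
    (P : Type) (A : P → ∀ n : ℕ, Submodule ℚ (Classes ι n))
    (hA : ∀ p, IsClassSystem par X (A p)) (hH : ∀ p n, A p n ≤ hodge w π n) :
    (∀ p, unitClass o ∈ A p 0 → oddClass par X ∈ A p 1 → polClass X Q ∈ A p 1 →
      ∃ (r : ℕ) (d : Fin r → ℕ) (φ : ∀ j, Classes ι (d j)), (∀ j, φ j ∈ A p (d j)) ∧
        ∀ q, (∀ j, φ j ∈ A q (d j)) → VariationalAll A p q) ∧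
    ∀ N : ℕ,
      ((∀ y, IsCentral w π y → yᵀ * Q = Q * y) ∧ N = max 4 (trdim w π) ∨
        (∀ y, IsCentral w π y →
          (toC y * ∑ k ∈ Finset.Icc (-w : ℤ) w, (k : ℂ) • π k).trace = 0) ∧
            N = max 4 (trdim w π ^ 2 / 4) ∨
        N = max 4 ((w * trdim w π) ^ trdim w π)) →
      ∀ p, (∀ n, n + 1 ≤ N → hodge w π n ≤ A p n) →
        ∀ q, (∀ n, n + 1 ≤ N → Variational A p q n) →
          VariationalAll A p q ∧ ∀ n, A p n = hodge w π n ∧ A q n = hodge w π n := by
  obtain ⟨H, rfl, rfl, rfl, rfl⟩ := (polarised_of hQ).exists_hdata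
  have hXX : X * X⁻¹ = 1 := Matrix.mul_nonsing_inv X (isUnit_iff_ne_zero.2 hX.perfect)
  have hC : Pool.Agent.V8H29.NV.Comp H par X X⁻¹ := by
    refine ⟨fun t _ i j hne => ?_, hX.even, hX.hodge, hXX⟩
    by_contra hpar
    apply hne
    rw [Pool.Agent.N996.BP.HData.l_apply, Matrix.sum_apply]
    refine Finset.sum_eq_zero fun k hk => ?_
    rw [Matrix.smul_apply]
    by_cases h0 : H.π k i j = 0
    · rw [h0, smul_zero]
    · exact absurd (hX.parity k hk i j h0) hpar
  have hle : ∀ p n, A p n ≤ Pool.Agent.N996.BP.BB H (Fin (n + 1)) := fun p n =>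
    (hH p n).trans (hodge_eq H n).le
  refine ⟨fun p h1 h2 h3 => ?_, fun N hN p h1 q h2 => ?_⟩
  · obtain ⟨M, hM⟩ := Pool.Agent.V8H29.NV.det_core hC (classSys_of (hA p)) (hle p) h1 h2 h3
    obtain ⟨r, d, φ, h4, h5⟩ := exists_finite (A p) M
    exact ⟨r, d, φ, h4, fun q hq =>
      variationalAll_of (hM _ (classSys_of (hA q)) (h5 (A q) hq))⟩
  · obtain ⟨t, ht⟩ : ∃ t, t = trdim H.w H.π := ⟨_, rfl⟩
    rw [← ht] at hN
    have hcard : Fintype.card ι ≤ t + Module.finrank ℚ
        (Pool.Agent.N996.BP.BB H (Fin (0 + 1))) := by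
      rw [ht, trdim, hodge_eq]
      exact le_tsub_add
    have hcen : ∀ y, Pool.Agent.N996.FP.IsC H y → IsCentral H.w H.π y := fun y hy => hy
    have key : ∀ B : ∀ n : ℕ, Submodule ℚ (Classes ι n), IsClassSystem par X B →
        (∀ n, n + 1 ≤ N → hodge H.w H.π n ≤ B n) → ∀ n, hodge H.w H.π n ≤ B n := by
      intro B hB hB1 n
      rw [hodge_eq]
      refine Pool.Agent.V8H29.NV.gen_core (w := max 1 H.w) (N := N) hC (classSys_of hB) hcard
        (le_max_left _ _) (le_max_right _ _) ?_ (fun m hm => ?_) n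
      · rcases hN with ⟨h, hN⟩ | ⟨h, hN⟩ | hN
        · refine Or.inl ⟨fun y hy => ?_, hN⟩
          have h3 := h y (hcen y hy)
          have h4 := H.Qr_Qir
          have h5 : H.Qir * H.Qr = 1 := mul_eq_one_comm.1 h4
          have h6 : y * H.Qir = H.Qir * yᵀ := by
            calc y * H.Qir = (H.Qir * H.Qr) * y * H.Qir := by rw [h5, Matrix.one_mul]
              _ = H.Qir * (H.Qr * y) * H.Qir := by simp only [Matrix.mul_assoc]
              _ = H.Qir * yᵀ * (H.Qr * H.Qir) := by rw [← h3]; simp only [Matrix.mul_assoc]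
              _ = _ := by rw [h4, Matrix.mul_one]
          have h7 := congrArg Pool.Agent.N996.BP.cQ h6
          rw [Pool.Agent.N996.BP.cQ_mul, Pool.Agent.N996.BP.cQ_mul] at h7
          exact h7
        · refine Or.inr (Or.inl ⟨fun y hy => ?_, hN⟩)
          have h3 := h y (hcen y hy)
          have h4 : Pool.Agent.N996.FP.Ng H (RingEquiv.refl ℂ) =
            ∑ k ∈ Finset.Icc (-(H.w : ℤ)) H.w, (k : ℂ) • H.π k := rfl
          rw [h4]
          exact h3
        · refine Or.inr (Or.inr ?_)
          rcases Nat.eq_zero_or_pos H.w with h0 | h0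
          · have h3 : t = 0 := ht.trans (trdim_zero h0)
            rw [h3] at hN ⊢
            simpa using hN
          · rw [(max_eq_right h0 : max 1 H.w = H.w)]
            exact hN
      · exact (hodge_eq H m).symm.le.trans (hB1 m hm)
    have hp : ∀ n, A p n = hodge H.w H.π n := fun n =>
      le_antisymm (hH p n) (key (A p) (hA p) h1 n)
    have hq : ∀ n, A q n = hodge H.w H.π n := fun n =>
      le_antisymm (hH q n) (key (A q) (hA q) (fun m hm => (h1 m hm).trans (h2 m hm)) n)
    exact ⟨variationalAll_of fun n => by rw [Variational, hp, hq], fun n => ⟨hp n, hq n⟩⟩
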