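import Pool.Agent.V8H87.AB.Half

/-!
# The noncommutative variational Hodge conjecture for all powers: one half of the sections decides

Let `𝒞 ⊂ D_perf(X)` be an `S`-linear admissible subcategory, `0 ∈ S` and `P ⊂ S` any set of points with
`0 ∈ P` (for instance `P = {0, s}` or `P = S`). For `n ≥ 0` let

* `A_n` be the dimension of the space of the global sections of `K^top_0(End(𝒞^(⊗ n))/S)_ℚ`,
  `End(𝒞^(⊗ n)) = (𝒞^(⊗ n))^∨ ⊗ 𝒞^(⊗ n)`, which are algebraic at `0`,
* `B_n` be the rank, modulo numerical equivalence, of the group of those among them which are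
  algebraic at all points of `P`. (If numerically trivial sections of this kind are zero, `B_n` is the
  dimension of their space; in any case it is at most this dimension.)

The conjecture predicts `B_n = A_n`. We prove:

(1) The proportion `B_n / A_n` converges for `n → ∞` and the limit `κ` is `0` or `1 / k`, `k` a natural
number. One has `κ = 1` if and only if ALL sections, of all mixed powers
`(𝒞^∨)^(⊗ a) ⊗ 𝒞^(⊗ b)` and of their direct summands, which are algebraic at `0` are algebraic at all points
of `P`, that is, the conclusion of the noncommutative variational Hodge conjecture holds for all of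
them.

(2) So this is true as soon as, for some `δ > 0`, `B_n ≥ (1/2 + δ) A_n` for infinitely many `n`. If it is
false then for large `n` at most `1/2 + δ` of the sections algebraic at `0` are algebraic on `P`.

(3) One explicit power decides: let `b = dim K^top_•(𝒞_0)` and `n ≥ 128 (m+1)^2 b^(4m+12)`. If more than
two thirds of the sections of `K^top_0(End(𝒞^(⊗ n))/S)_ℚ` algebraic at `0` are algebraic on `P`
(`2 A_n < 3 B_n`), then all sections of `K^top_0(End(𝒞^(⊗ m))/S)_ℚ` algebraic at `0` are algebraic on `P`.

The setting. `D` is the category whose objects are the (direct summands of sums of) mixed powers of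
`𝒞` and whose morphisms are the global sections of `K^top_0` of the functor categories which are
algebraic at `0`; the composition is the convolution of kernels. `C` is the category with the same
objects, or with the powers of `𝒞` only and their duals, whose morphisms are the sections algebraic at
all points of `P`, and `G : C ⥤ D` is the inclusion; it is faithful (`hG`) but not full. They are rigid
symmetric monoidal `ℚ`-linear categories, `Λ = ℚ`, the unit is `D_perf(S)`, and a section of the constant
local system `K^top_0(D_perf(S))_ℚ` is a rational number (`hU`, and the first part of `hR`). `R` is the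
fibre functor `K^top_•((-)_0) ⊗ ℂ` to super vector spaces over `K = ℂ`. `T = 𝒞`, or `𝒞 ⊕ D_perf(S)` if `D_perf(S)` is
not a direct summand of `𝒞` in `C` (`hir`); it is one if there are sections of `𝒞` algebraic on `P` with
Euler pairing one, for instance the structure sheaf and the class of a point for
`𝒞 = D_perf(X)`.

The two hypotheses. (`hT`) The projector of `K^top_•(𝒞)` to the even part is algebraic at all points of
`P`; there is nothing to assume if `K^top_1(𝒞) = 0`. (`hD`) Sections algebraic at `0` which are orthogonal to
all such sections are zero: this is the semisimplicity of `D`. It is satisfied if all global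
sections are algebraic at `0`, since the monodromy representations are semisimple by a theorem of
Deligne, and if numerical and homological equivalence coincide for these sections at `0`. No
hypothesis of this kind is made for `C`, that is, for the points of `P` other than `0`.

The theorem holds for all categories and functors with these properties.

Steps of the proof. By the law of the dimensions of the values of additive functors on powers (library
`Pool/Agent/N64/AF`) applied to the functor `Hom_D(1, G(-))` and to the cokernel of
`Hom_C(1, -) → Hom_D(1, G(-))` on the powers of `T ⊗ T^∨`: the quotients `A_n / B_n` and the quotients of the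
dimension of the cokernel by `B_n` converge to natural numbers or infinity, the second limit is
zero if the first one is one, and if it is zero the cokernel vanishes on all powers.
-/

set_option autoImplicit false

open CategoryTheory Limits MonoidalCategory Module Filter Topology
open Pool.Agent.Y112.SR Pool.Agent.Y112.KD Pool.Agent.N64.AF
open Pool.Agent.V8H87.AB (Thick hn hg compR)

namespace Pool.Agent.Results.MP_298761_ag.HalfOfTheFlatClasses

universe v u u' w t

/-- `G` is full on the thick tensor subcategory generated by `T`: all sections of all mixed powers of `𝒞`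
which are algebraic at `0` are algebraic on `P`. -/
def FullOn {C : Type u} [Category.{v} C] [Preadditive C] [MonoidalCategory C]
    [SymmetricCategory C] [RightRigidCategory C] [HasBinaryBiproducts C] {D : Type u'}
    [Category.{v} D] (G : C ⥤ D) (T : C) : Prop :=
  ∀ {X Y : C}, Thick T X → Thick T Y → ∀ ψ : G.obj X ⟶ G.obj Y, ∃ f : X ⟶ Y, G.map f = ψ

/-- The proportion of the sections algebraic at `0` which are algebraic on `P`. -/
theorem result {C : Type u} [Category.{v} C] [Preadditive C] [MonoidalCategory C]
    [MonoidalPreadditive C] [SymmetricCategory C] [RightRigidCategory C] [HasBinaryBiproducts C]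
    {D : Type u'} [Category.{v} D] [Preadditive D] [MonoidalCategory D] [MonoidalPreadditive D]
    [SymmetricCategory D] [RightRigidCategory D] [HasBinaryBiproducts D]
    {Λ : Type t} [Field Λ] [CharZero Λ] [Linear Λ C] [MonoidalLinear Λ C] [Linear Λ D]
    [MonoidalLinear Λ D] {K : Type w} [Field K] [IsAlgClosed K] [Algebra Λ K]
    (R : SuperRealisation D K) (G : C ⥤ D) [G.Additive] [G.Linear Λ] [G.Braided]
    (hR : IsReal Λ R) (hD : ∀ {X Y : D} (f : X ⟶ Y), NumTriv f → f = 0)
    (hU : ∀ c : 𝟙_ C ⟶ 𝟙_ C, ∃ q : Λ, c = q • 𝟙 _)
    (hG : ∀ {X Y : C} (f : X ⟶ Y), G.map f = 0 → f = 0)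
    (T : C) (hT : (compR G R).CPlus T) (i : 𝟙_ C ⟶ T) (r : T ⟶ 𝟙_ C)
    (hir : i ≫ r = 𝟙 (𝟙_ C)) :
    (∃ κ : ℝ, (κ = 0 ∨ ∃ k : ℕ, 1 ≤ k ∧ κ = 1 / k) ∧
      Tendsto (fun n : ℕ => (hn Λ (tp T n) (tp T n) : ℝ) / hg Λ G (tp T n) (tp T n))
        atTop (𝓝 κ) ∧
      (∀ᶠ n : ℕ in atTop, 0 < hg Λ G (tp T n) (tp T n)) ∧
      (κ = 1 ↔ FullOn G T)) ∧
    ((∃ δ : ℝ, 0 < δ ∧ ∃ᶠ n : ℕ in atTop,
      (1 / 2 + δ) * hg Λ G (tp T n) (tp T n) ≤ hn Λ (tp T n) (tp T n)) ↔ FullOn G T) ∧
    (∀ m n : ℕ, 128 * (m + 1) ^ 2 * bt R (G.obj T) ^ (4 * m + 12) ≤ n →
      2 * hg Λ G (tp T n) (tp T n) < 3 * hn Λ (tp T n) (tp T n) →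
        ∀ φ : G.obj (tp T m) ⟶ G.obj (tp T m), ∃ f : tp T m ⟶ tp T m, G.map f = φ) :=
  ⟨Pool.Agent.V8H87.AB.half G hR hD hU hG hT hir,
    Pool.Agent.V8H87.AB.half_gap G hR hD hU hG hT hir,
    fun m n h1 h2 φ => Pool.Agent.V8H87.AB.half_explicit G hR hD hU hT
      (bt_pos (Λ := Λ) ⟨Pool.Agent.V8H87.AB.isReal_comp G hR hU, hT, i, r, hir⟩) m n h1 h2 φ⟩

end Pool.Agent.Results.MP_298761_ag.HalfOfTheFlatClasses
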