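import Pool.Agent.V8H91.ND.Main

/-!
# The noncommutative variational Hodge conjecture and numerical equivalence

Let `X → S` be a smooth proper morphism of complex varieties, `S` smooth, `𝒞` an `S`-linear
admissible subcategory of `D_perf(X)`, and `X̄` a smooth proper compactification of `X`. Let `F` be the
space of the global sections of `K^top_0(𝒞/S) ⊗ ℚ`, and `K = K^top_0(X̄) ⊗ ℚ`. The functor
`res : D_perf(X̄) → D_perf(X_s) → 𝒞_s` (restriction and projection) has a right adjoint
`gys : 𝒞_s → D_perf(X_s) → D_perf(X̄)`; on the K-theory these functors induce maps `res : K → F` and
`gys : F → K`, which do not depend on the point `s` of `S`. The following facts are classical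
(`IsFamily`): adjunction; `res` is surjective (Deligne's theorem on global invariant cycles); the
Euler form is nondegenerate on `F` (semisimplicity of the monodromy); `res` and `gys` preserve
algebraic classes; and a section which is algebraic at all points is the restriction of an algebraic
class of `X̄` (countability of the components of the space of objects, and taking closures).

For a point `p` of `S` let `alg p ⊆ F` be the space of the sections which are algebraic at `p`, let
`everywhere` be the space of the sections which are algebraic at all points, `fibreNumTriv p` the space
of the classes `gys φ`, `φ ∈ alg p`, which are numerically trivial on `X̄` (they are represented by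
objects supported on the fibre over `p`), and `orthAt p` the space of the `φ ∈ everywhere` which are
orthogonal to `alg p`. Then

1. `dim (alg p) - dim everywhere = dim (fibreNumTriv p) - dim (orthAt p)`; in particular the
   number of independent sections which are algebraic at `p` but not everywhere is at most the
   dimension of the space of the numerically trivial algebraic classes of `X̄`;
2. the noncommutative variational Hodge conjecture for `𝒞` and the point `p` is true if and only if
   every section algebraic at `p` is the restriction of an algebraic class of `X̄`, and if and only if
   `dim (fibreNumTriv p) = dim (orthAt p)`;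
3. the conjecture D (numerical and homological equivalence coincide) for the classes `gys φ` of `X̄`,
   `φ ∈ alg p`, is equivalent to the variational conjecture for `𝒞` and `p` together with the
   conjecture D for the generic fibre of `𝒞`, that is, the Euler form is nondegenerate on
   `everywhere` (the image of the K-theory of the generic fibre of `𝒞`);
4. if the variational conjecture for `𝒞` fails at `p` then there is a section `φ`, algebraic at `p`, such
   that `gys φ` is numerically but not homologically trivial on `X̄`. So the conjecture D for `X̄`
   implies the noncommutative variational Hodge conjecture for all `S`-linear admissible subcategories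
   of `D_perf(X)` and all points.

The known fact behind 4 is that the standard conjectures imply the variational Hodge conjecture;
here only one class of conjecture D is used, and the converse is given. If `S` is proper then `X̄ = X`,
and `X̄` can be replaced by `𝒞` itself (with `K = K^top_0(𝒞) ⊗ ℚ`): then D is the noncommutative standard
conjecture D for `𝒞`.
-/

open Module Pool.Agent.V8H91.ND

universe u v w

namespace Pool.Agent.Results.MP_298761_ag.NumericalCriterion

/-- **The noncommutative variational Hodge conjecture and numerical equivalence.** -/
theorem result {P : Type u} {F : Type v} {K : Type w} [AddCommGroup F] [Module ℚ F]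
    [AddCommGroup K] [Module ℚ K] [Module.Finite ℚ F] [Module.Finite ℚ K] {D : FamilyData P F K}
    (h : IsFamily D) (p : P) :
    (finrank ℚ (D.alg p) + finrank ℚ (D.orthAt p) =
      finrank ℚ D.everywhere + finrank ℚ (D.fibreNumTriv p)) ∧
    finrank ℚ (D.alg p) ≤ finrank ℚ D.everywhere + finrank ℚ D.numTriv ∧
    (D.VHC p ↔ D.alg p = D.algTot.map D.res) ∧
    (D.VHC p ↔ finrank ℚ (D.fibreNumTriv p) = finrank ℚ (D.orthAt p)) ∧
    (D.ConjDFibre p ↔ D.VHC p ∧ D.ConjDGeneric) ∧
    (¬ D.VHC p → ∃ φ ∈ D.alg p, D.gys φ ≠ 0 ∧ D.gys φ ∈ D.numTriv) :=
  main h p

end Pool.Agent.Results.MP_298761_ag.NumericalCriterion
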