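import Pool.Agent.V8H91.NV.Main

/-!
# The noncommutative variational Hodge conjecture for tensor powers of categories with a monodromy
# operator of rank one, tensored with an arbitrary category

Let `S` be a complex variety, and `𝒞`, `𝒟` two `S`-linear categories, admissible in the categories of
perfect complexes of smooth proper `S`-schemes. The K-theory is `K(𝒞) = K^top_0 ⊕ K^top_1`, with
rational coefficients, of the fibre of `𝒞` at the base point, with the Euler form and the action of
the fundamental group `Γ` of `S`. We consider `𝒞 ^ n ⊠ 𝒟`, the tensor product over `S` of `𝒟` and `n`
copies of `𝒞`; its K-theory is `K(𝒞) ^ (⊗ n) ⊗ K(𝒟)`, and by the Euler form its elements are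
considered as multilinear maps `K(𝒞) ^ n → K(𝒟)`. Assume:

* `K(𝒞) = A ⊕ T`, where `A ⊆ K^top_0` consists of global sections which are algebraic at all points of
  `S`, `T` is the orthogonal complement of `A` for the Euler form (on both sides), contained in
  `K^top_0` or in `K^top_1`, and irreducible under all subgroups of finite index of `Γ`;
* there is a class `κ` of `𝒞 ⊠ 𝒞`, algebraic at all points, whose component in `T ⊗ T` is not zero
  (`𝒞` is self-dual; for `𝒞 = D_perf(X)` this is the class of the diagonal, and for `𝒞` in
  `D_perf(X)` and `T` in one cohomology group of `X` it is given by the duality functor of `X`);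
* some element `γ` of `Γ` acts trivially on `K(𝒟)`, and `γ - 1` has rank one on `T`.

Then the noncommutative variational Hodge conjecture holds for `𝒟` if and only if it holds for all
`𝒞 ^ n ⊠ 𝒟`, and if so then it holds for all direct summands of these categories, for example all
`S`-linear admissible subcategories; such a summand is given by its projection functor, an
idempotent operator on the K-theory which maps algebraic classes to algebraic classes.

For example `𝒞` is the category `D_perf` of a family of hypersurfaces or complete intersections, or
its Kuznetsov component (of cubic threefolds, cubic fourfolds, Gushel-Mukai varieties, and so on),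
`T` is the vanishing cohomology, and `γ` is the monodromy around a fibre with one ordinary double
point (a reflection or a transvection by the formula of Picard and Lefschetz; `T` is irreducible
under subgroups of finite index if the monodromy group is infinite, and always if it is
symplectic). If `𝒟` is constant, for instance `D_perf(Y × S)` for one variety `Y`, then the conjecture
is trivially true for `𝒟`, and the theorem proves it for `𝒞 ^ n ⊠ 𝒟`, for all `n`. The theorem can be
iterated, with `𝒟` replaced by `𝒞' ^ n' ⊠ 𝒟`, as soon as `γ` acts trivially on `T'`.

Not assumed and proved on the way: the form on `T` is symmetric or alternating, and the element of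
rank one is a reflection or a transvection (`exists_sign`); the tensors in `T ^ (⊗ n) ⊗ K(𝒟)` fixed
by `Γ` are combinations of products of the form on pairs of variables and fixed elements of `K(𝒟)`
(`mem_MSpan`; the operators of the orthogonal or symplectic Lie algebra kill all equivariant
multilinear maps, by lemmas of the starting library, and then the first fundamental theorem of
invariant theory, for the full orthogonal group and for any number of variables, applies); the
pairing on the span of these products is perfect (`exists_dual`; in a suitable basis it is positive
definite). So the components in `K(𝒟)` of a flat class are flat classes which are obtained from it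
by algebraic operations, and conversely.
-/

open Pool.Agent.V8H91.NV

universe u v w x y

namespace Pool.Agent.Results.MP_298761_ag.TensorPowers

/-- **The noncommutative variational Hodge conjecture for tensor powers.** `A × T` is the K-theory of
`𝒞` and `E` is the K-theory of `𝒟` (at the base point), with the action of the fundamental group `Γ`
by `ρ` on `T` and by `σ` on `E`; the classes in `A` are flat. `P` is the set of the points of the
base (with a path to the base point), and `𝒜` gives the algebraic classes at the points. -/
theorem result {A : Type u} [AddCommGroup A] [Module ℚ A] [Module.Finite ℚ A] {T : Type v}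
    [AddCommGroup T] [Module ℚ T] [Module.Finite ℚ T] {E : Type w} [AddCommGroup E] [Module ℚ E]
    {P : Type x} {Γ : Type y} [Group Γ] {ρ : Γ →* (T →ₗ[ℚ] T)} {σ : Γ →* (E →ₗ[ℚ] E)}
    {B : T →ₗ[ℚ] T →ₗ[ℚ] ℚ} {𝒜 : ClassData P A T E} (hm : RankOneMonodromy ρ σ B)
    (hc : IsClassSystem 𝒜 B) :
    (VHCBase σ 𝒜 ↔ ∀ n, VHCPower ρ σ 𝒜 n) ∧ (VHCBase σ 𝒜 → ∀ n, VHCSummands ρ σ 𝒜 n) :=
  main hm hc

end Pool.Agent.Results.MP_298761_ag.TensorPowers
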